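import Pool.Agent.Helper74.DI.St

set_option autoImplicit false

namespace Pool.Agent.Helper38.DI

open Pool.Agent.Helper74 Pool.Agent.Helper74.DI
open Pool.Agent.Helper74.NM (NC)

theorem hNCI : StNCI := by
  intro G R u m v huv hm
  have key : ∀ z, NC R z → ∀ u v : List G, z = u ++ v → NC R (u ++ (m ++ v)) := by
    intro z hz
    induction hz with
    | nil =>
      intro u v h
      have h' := h.symm
      rw [List.append_eq_nil_iff] at h'
      rw [h'.1, h'.2]
      simpa using hm
    | wrap x y p q hxy hp hq ihp ihq =>
      intro u v h
      cases u with
      | nil =>
        rw [List.nil_append] at h ⊢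
        rw [← h]
        exact nc_append m _ hm (NC.wrap x y p q hxy hp hq)
      | cons x' u' =>
        rw [List.cons_append, List.cons.injEq] at h
        obtain ⟨rfl, h⟩ := h
        rcases List.append_eq_append_iff.mp h with ⟨a, ha, hb⟩ | ⟨c, hc, hd⟩
        · cases a with
          | nil =>
            rw [List.nil_append] at hb
            rw [List.append_nil] at ha
            rw [ha, ← hb]
            have h2 := NC.wrap x y (p ++ m) q hxy (nc_append p m hp hm) hq
            have e : x :: p ++ (m ++ y :: q) = x :: (p ++ m ++ y :: q) := by simp
            rw [e]
            exact h2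
          | cons y' a' =>
            rw [List.cons_append, List.cons.injEq] at hb
            obtain ⟨rfl, hb⟩ := hb
            have h2 := NC.wrap x y p _ hxy hp (ihq a' v hb)
            rw [ha]
            have e : x :: (p ++ y :: a') ++ (m ++ v) = x :: (p ++ y :: (a' ++ (m ++ v))) := by simp
            rw [e]
            exact h2
        · have h2 := NC.wrap x y _ q hxy (ihp u' c hc) hq
          rw [hd]
          have e : x :: u' ++ (m ++ (c ++ y :: q)) = x :: (u' ++ (m ++ c) ++ y :: q) := by simp
          rw [e]
          exact h2
  exact key _ huv u v rfl

end Pool.Agent.Helper38.DI
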